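import Pool.Agent.Q1.BD.Curve

set_option autoImplicit false

/-!
# Algebroid curves given by iterated linear differential equations

Let `X` be the integral closed subvariety of projective `n`-space given by the forms in `FF` over a
countable field `k`, which we embed in `ℂ` by any `σ` (every complex projective variety is obtained
in this way). A `d`-valued algebroid curve over a domain `Ω` of the plane is given by the
coefficients `x(z)` of a monic polynomial `Pol (x z)` of degree `d` and of `n + 1` polynomials of
degree less than `d`: at each root `α` of `Pol (x z)` it has the point `Num (x z) α`, whose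
homogeneous coordinates are the values of the `n + 1` polynomials at `α`. We suppose that the
coefficients are given by iterated linear differential equations of bounded complexity
(`DFam Ω s r e x`): there are invertible matrices `X_1(z), ..., X_s(z)` of size `r` of analytic
functions on `Ω` such that the entries of `X_l'(z) X_l(z)⁻¹` are values of polynomials of degree at
most `e` in each variable at the entries of `X_i(z)`, `X_i(z)⁻¹`, `i < l`, and the components of
`x(z)` are such values for all `i`. So the branches of these curves contain, for instance, all
solutions of algebraic equations whose coefficients are polynomials in exponentials of polynomials,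
Airy functions, `exp (exp z)` and so on.

If `X` is not covered by curves of gonality at most `d`, then for all `s`, `r`, `e` there is ONE
proper closed subset `X ∩ {G = 0}` of `X` which contains ALL nonconstant branches (holomorphic maps
`z ↦ Num (x z) (α z)` on domains `Ω`, for an analytic root `α`) of such `d`-valued algebroid curves
in `X`.
-/

namespace Pool.Agent.Results.MP_8d161d_ag.AlgebroidCurves

open MvPolynomial Pool.Agent.Q1.BD

theorem result {k : Type} [Field k] [Countable k] {n : ℕ}
    (FF : Set (MvPolynomial (Fin (n + 1)) k)) (hhom : ∀ F ∈ FF, ∃ e, F.IsHomogeneous e)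
    (hprime : (Ideal.span FF).IsPrime) (d : ℕ) (hcov : ¬ Covered (Ideal.span FF) d) (s r e : ℕ) :
    ∃ G : MvPolynomial (Fin (n + 1)) k, (∃ d, G.IsHomogeneous d) ∧ G ∉ Ideal.span FF ∧
      ∀ (σ : k →+* ℂ) (Ω : Set ℂ), IsOpen Ω → IsPreconnected Ω →
        ∀ (x : ℂ → Jx n d → ℂ) (α : ℂ → ℂ), DFam Ω s r e x → AnalyticOnNhd ℂ α Ω →
        (∀ z ∈ Ω, (Pol (x z)).eval (α z) = 0) →
        (∀ z ∈ Ω, ∀ F ∈ FF, eval₂ σ (Num (x z) (α z)) F = 0) →
        (∃ z ∈ Ω, ∃ w ∈ Ω, ∃ u v, Num (x z) (α z) u * Num (x w) (α w) v ≠
          Num (x z) (α z) v * Num (x w) (α w) u) →
          ∀ z ∈ Ω, eval₂ σ (Num (x z) (α z)) G = 0 :=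
  strong_bd_curves FF hhom hprime d hcov s r e

end Pool.Agent.Results.MP_8d161d_ag.AlgebroidCurves
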