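import Pool.Agent.Q171.RC.Strong

/-!
# The exceptional sets of the Green-Griffiths-Lang conjecture for curves of bounded complexity

We consider curves `f : Ω → X` on arbitrary domains `Ω` of the plane (for instance entire curves,
`Ω = ℂ`) in projective varieties, with homogeneous coordinates given by `s` iterated linear
differential equations with matrices of size `r` and polynomials of degree at most `e`
(`DVec Ω s r e f`): there are invertible matrices `X_1(z), ..., X_s(z)` of size `r` of analytic
functions on `Ω` such that the entries of `X_l'(z) X_l(z)⁻¹` are values of polynomials with constant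
coefficients, of degree at most `e` in each variable, at the entries of `X_i(z)`, `X_i(z)⁻¹`, `i < l`,
and the coordinates of `f(z)` are values of such polynomials at the entries of all these matrices.
(Polynomials, exponential polynomials, `exp (exp z)`, Airy functions, and so on, are of this kind.)

For all `n`, `D`, `s`, `r`, `e` there is a number `δ` with the following property. Let `k` be a field
with an embedding in `ℂ` and let `X_t`, for `t = (t_1, ..., t_m)`, be any algebraic family of
projective varieties over `k`: `X_t` is given by forms in `n + 1` variables of degree at most `D` with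
coefficients in `k[t_1, ..., t_m]`. Then there are finitely many forms `G` with coefficients in
`k[t_1, ..., t_m]` such that, for ALL `t` with coordinates in `ℂ`:

(1) the closed set `Z_t` given by the forms `G_t` is the union of all rational curves of degree at
most `δ` on `X_t`;

(2) every nonconstant curve in `X_t` of complexity `(s, r, e)`, on any domain, has its image in `Z_t`:
each of its points lies on a rational curve of degree at most `δ` on `X_t`;

(3) every point of `Z_t` lies on a nonconstant curve `ℂ → X_t` of complexity `(1, 2, δ)`.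

So the union of all nonconstant curves of this kind (for all complexities) in a projective variety
`X` is the union of the rational curves on `X`. If `X_t` is not covered by rational curves, for
instance if it is of general type, then `Z_t ≠ X_t` is a proper closed subset as in the conjecture,
and it depends algebraically on the parameter `t`.
-/

set_option autoImplicit false

namespace Pool.Agent.Results.MP_8d161d_ag.ExceptionalLociOfCurves

open MvPolynomial Pool.Agent.Q1.SL Pool.Agent.Q171.RC

/-- the equations of the member `X_t` of the family, for `t` with coordinates in `ℂ` -/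
def member {N m : ℕ} {k : Type} [Field k] [Algebra k ℂ]
    (S : Set (MvPolynomial (Fin N) (MvPolynomial (Fin m) k))) (t : Fin m → ℂ) :
    Set (MvPolynomial (Fin N) ℂ) := map (aeval t : MvPolynomial (Fin m) k →ₐ[k] ℂ).toRingHom '' S

/-- The point with the homogeneous coordinates `x` lies on a rational curve of degree at most `δ` on
the projective variety of `S`: there is a vector `p` of polynomials of degree at most `δ` with values
on the variety which are not all the same point and with `p(0) = x`. -/
def OnRationalCurve {N : ℕ} (δ : ℕ) (S : Set (MvPolynomial (Fin N) ℂ)) (x : Fin N → ℂ) : Prop :=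
  ∃ p : Fin N → Polynomial ℂ, (∀ j, (p j).natDegree ≤ δ) ∧ (∀ F ∈ S, aeval p F = 0) ∧
    (∃ s t i j, (p i).eval s * (p j).eval t ≠ (p j).eval s * (p i).eval t) ∧
    ∀ j, (p j).eval 0 = x j

/-- `f` is a nonconstant curve on the projective variety of `S`, on the domain `Ω`, of complexity
`(s, r, e)`. -/
def IsCurve {N : ℕ} (S : Set (MvPolynomial (Fin N) ℂ)) (s r e : ℕ) (Ω : Set ℂ)
    (f : ℂ → Fin N → ℂ) : Prop :=
  DVec Ω s r e f ∧ (∀ z ∈ Ω, ∀ F ∈ S, eval (f z) F = 0) ∧
    ∃ z ∈ Ω, ∃ w ∈ Ω, ∃ i j, f z i * f w j ≠ f z j * f w i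

theorem result (n D s r e : ℕ) : ∃ δ : ℕ,
    ∀ (k : Type) [Field k] [Algebra k ℂ] (m : ℕ)
      (S : Set (MvPolynomial (Fin (n + 1)) (MvPolynomial (Fin m) k))),
      (∀ F ∈ S, ∃ e, e ≤ D ∧ F.IsHomogeneous e) →
      ∃ Z : Set (MvPolynomial (Fin (n + 1)) (MvPolynomial (Fin m) k)), Z.Finite ∧
        (∀ G ∈ Z, ∃ d, G.IsHomogeneous d) ∧ ∀ t : Fin m → ℂ,
          (∀ x : Fin (n + 1) → ℂ, x ≠ 0 →
            ((∀ G ∈ member Z t, eval x G = 0) ↔ OnRationalCurve δ (member S t) x)) ∧
          (∀ Ω : Set ℂ, IsOpen Ω → IsPreconnected Ω → ∀ f : ℂ → Fin (n + 1) → ℂ,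
            IsCurve (member S t) s r e Ω f → ∀ z ∈ Ω, f z ≠ 0 →
              (∀ G ∈ member Z t, eval (f z) G = 0)) ∧
          ∀ x : Fin (n + 1) → ℂ, x ≠ 0 → (∀ G ∈ member Z t, eval x G = 0) →
            ∃ f : ℂ → Fin (n + 1) → ℂ, IsCurve (member S t) 1 2 δ Set.univ f ∧ f 0 = x := by
  classical
  obtain ⟨δ, hB⟩ := ode_locus n D s r e
  refine ⟨δ, fun k _ _ m S hS => ?_⟩
  obtain ⟨Gs, hGs, hloc⟩ := locus ℂ S (fun F hF => by
    obtain ⟨e, -, he⟩ := hS F hF
    exact ⟨e, he⟩) δ
  have hpt : ∀ (t : Fin m → ℂ) (y : Fin (n + 1) → ℂ),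
      HasPt (ev t : MvPolynomial (Fin m) k →+* ℂ) S δ y ↔ OnRationalCurve δ (member S t) y := by
    intro t y
    constructor
    · rintro ⟨p, h1, h2, h3, h4⟩
      refine ⟨p, h2, ?_, h1, h4⟩
      rintro _ ⟨F, hF, rfl⟩
      exact h3 F hF
    · rintro ⟨p, h1, h2, h3, h4⟩
      exact ⟨p, h3, h1, fun F hF => h2 _ ⟨F, hF, rfl⟩, h4⟩
  have hiff : ∀ (t : Fin m → ℂ) (x : Fin (n + 1) → ℂ), x ≠ 0 →
      ((∀ G ∈ member (Gs : Set (MvPolynomial (Fin (n + 1)) (MvPolynomial (Fin m) k))) t,
        eval x G = 0) ↔ OnRationalCurve δ (member S t) x) := by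
    intro t x hx
    rw [← hpt, ← hloc t x hx]
    constructor
    · intro h G hG
      exact h _ ⟨G, hG, rfl⟩
    · rintro h _ ⟨G, hG, rfl⟩
      exact h G hG
  refine ⟨Gs, Gs.finite_toSet, fun G hG => hGs G hG, fun t => ⟨hiff t, ?_, ?_⟩⟩
  · rintro Ω hΩ hΩc f ⟨hf, hfS, hnc⟩ z hz hfz
    obtain ⟨p, h1, h2, h3, h4⟩ := hB (member S t) (by
      rintro _ ⟨F, hF, rfl⟩
      obtain ⟨e, he, he'⟩ := hS F hF
      exact ⟨e, he, he'.map _⟩) Ω hΩ hΩc f hf hfS hnc z hz hfz
    exact (hiff t (f z) hfz).2 ⟨p, h2, h3, h1, h4⟩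
  · intro x hx h
    obtain ⟨p, h1, h2, ⟨a, b, i, j, hne⟩, h4⟩ := (hiff t x hx).1 h
    refine ⟨fun z j => (p j).eval z, ⟨dvec_poly p h1, fun z _ F hF => ?_,
      a, Set.mem_univ _, b, Set.mem_univ _, i, j, hne⟩, funext h4⟩
    rw [← poly_eval, h2 F hF, Polynomial.eval_zero]

end Pool.Agent.Results.MP_8d161d_ag.ExceptionalLociOfCurves
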