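import Pool.Agent.Q73.TL.Main

/-!
# Entire curves in varieties over the plane, ramified over an arbitrary line arrangement

Let `ℓ i = 0`, `i < q`, be different lines in the projective plane, at most `K` of them through any
point, and `μ > 1` a real number such that `4 μ ^ 2 < q (μ - 1) ^ 2` and `2 K μ < q (μ - 1)`. There is
one plane curve `R = 0` which contains the images of all nonconstant entire curves of all projective
varieties `X` with a morphism to the plane which is ramified over the lines with mean multiplicity at
least `μ`, unless they are mapped to a point of the plane. If the morphism is dominant and generically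
finite then the conclusion of the Green-Griffiths-Lang conjecture holds for `X`: all nonconstant entire
curves in `X` lie in one proper closed subset.

A projective variety with a morphism to the plane is isomorphic to the graph of the morphism, a closed
subset of the product of `P ^ N` and the plane (`BiSet N`); the morphism is the second projection. The
definitions `BiSet`, `EntireCurve` (nonconstant entire curves), `Arc` (germs of arcs), `MeanRamified`,
`Dominant`, `GenFinite`, `PseudoBrody` and the vector product `cr` are in
`Pool/Agent/W602/TL/Proj.lean` and `Pool/Agent/W602/TL/Geo.lean`.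
-/

set_option autoImplicit false

open MvPolynomial Pool.Agent.W602.TL

namespace Pool.Agent.Results.MP_8d161d_ag.LineArrangementCovers

/-- Let `ℓ i = 0`, `i < q`, be different lines in the plane (the vector products `cr (ℓ i) (ℓ j)`
are not `0`), at most `K` of them through any point, and let `μ > 1`,
`4 * μ ^ 2 < q * (μ - 1) ^ 2` and `2 * K * μ < q * (μ - 1)`. There is a form `R ≠ 0` in three
variables such that for all `N` and all closed subsets `X` of `P ^ N × P ^ 2` whose projection to the
plane is ramified over the lines with mean multiplicity at least `μ`: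
**(1)** every nonconstant entire curve `(u, v)` in `X` is mapped into the curve `R = 0` or to a point
of the plane;
**(2)** if the projection to the plane is dominant and generically finite, then all nonconstant
entire curves in `X` lie in a proper closed subset of `X`. -/
theorem result {q K : ℕ} {μ : ℝ} (hq : 2 ≤ q) (ℓ : Fin q → Fin 3 → ℂ)
    (hdist : ∀ i j, i ≠ j → cr (ℓ i) (ℓ j) ≠ 0)
    (hconc : ∀ x : Fin 3 → ℂ, x ≠ 0 → {i | ∑ j, ℓ i j * x j = 0}.ncard ≤ K)
    (hμ : 1 < μ) (h1 : 4 * μ ^ 2 < q * (μ - 1) ^ 2) (h2 : 2 * K * μ < q * (μ - 1)) :
    ∃ (R : MvPolynomial (Fin 3) ℂ) (e : ℕ), R.IsHomogeneous e ∧ R ≠ 0 ∧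
      ∀ (N : ℕ) (X : BiSet N), X.MeanRamified ℓ μ →
        (∀ u v, X.EntireCurve u v →
          (∀ z, eval (v z) R = 0) ∨ ∀ z z', ∃ t : ℂ, v z' = t • v z) ∧
        (X.Dominant → X.GenFinite → X.PseudoBrody) := by
  classical
  obtain ⟨R, e, hR, hR0, h⟩ := Pool.Agent.Q73.TL.curves hq ℓ hdist (K := K) (fun x hx => by
    have h3 := hconc x hx
    rw [Set.ncard_eq_toFinset_card'] at h3
    refine le_trans (le_of_eq ?_) h3
    congr 1
    ext i
    simp [sum_dt]) hμ h1 h2
  exact ⟨R, e, hR, hR0, fun N X hX => ⟨fun u v huv => h N X hX u v huv,
    fun hd hg => Pool.Agent.Q73.TL.pseudo hR hR0 X (fun u v huv => h N X hX u v huv) hg hd⟩⟩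

end Pool.Agent.Results.MP_8d161d_ag.LineArrangementCovers
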