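import Pool.Agent.Q139.EG.Hyp

set_option autoImplicit false

/-!
# Projective varieties of general type, entire curves with small coefficients

We consider curves given by `s` iterated linear differential equations with matrices of size `r` and
polynomials of degree at most `e`, with coefficients in a ring `M` of analytic functions
(`MVec Ω M s r e f`: there are invertible matrices
`X_1(z), ..., X_s(z)` of size `r` of analytic functions on `Ω` such that the entries of
`X_l'(z) X_l(z)⁻¹` are polynomials with coefficients in `M`, of degree at most `e` in each variable,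
in the entries of `X_i(z)`, `X_i(z)⁻¹`, `i < l`, and the coordinates of `f(z)` are such polynomials
in the entries of all these matrices).

Let `X` be a complex projective variety of general type with the ideal `p`. For all `s`, `r`, `e`
there are `D` and ONE proper closed subset `X ∩ {G = 0}` of `X` such that

(1) for all domains `Ω` and ALL rings `M` of analytic functions on `Ω` which contain the constants
and are closed under differentiation, every curve `f : Ω → X` with `MVec Ω M s r e f` lies in
`X ∩ {G = 0}` or is algebraic of degree at most `D` over `M`;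

(2) `X ∩ {G = 0}` contains ALL nonconstant entire curves `f : ℂ → X` given by `s` iterated linear
differential equations with SMALL coefficients: meromorphic functions `a` on the plane such that
`T(r, a^(k)) = o(T(r, f))` for all `k` (`SmallCurve s r e f`);

(3) for all subgroups `L` of the plane every entire curve `f : ℂ → X` given by `s` iterated linear
differential equations with arbitrary meromorphic coefficients with the periods `L` (`PerCurve L s r e f`) lies in
`X ∩ {G = 0}` or is invariant under a subgroup of index at most `D` of `L` (for a lattice `L`: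
factors through a complex torus).
-/

namespace Pool.Agent.Results.MP_8d161d_ag.SmallCoefficients

open MvPolynomial Pool.Agent.Q139.EG Pool.Agent.TH143.EL
open Pool.Agent.TH143.GT (FunField)
open Pool.Agent.W602.GT (GeneralType)
open scoped LinearAlgebra.Projectivization

theorem result {N : ℕ} (p : Ideal (MvPolynomial (Fin (N + 1)) ℂ)) (K : Type) [Field K]
    [Algebra ℂ K] (w : ℕ) (y : Fin (N + 1) → K) (hy : FunField p 1 K w y)
    (hL : GeneralType ℂ K w) (s r e : ℕ) :
    ∃ (G : MvPolynomial (Fin (N + 1)) ℂ) (D : ℕ), (∃ k, G.IsHomogeneous k) ∧ G ∉ p ∧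
      (∀ Ω : Set ℂ, IsOpen Ω → IsPreconnected Ω → ∀ M : Set (ℂ → ℂ), CRing Ω M →
        ∀ f : ℂ → Fin (N + 1) → ℂ, MVec Ω M s r e f →
        (∀ z ∈ Ω, ∀ F ∈ p, (∃ k, F.IsHomogeneous k) → eval (f z) F = 0) →
        (∀ z ∈ Ω, eval (f z) G = 0) ∨ ∀ u v, AlgM Ω M D (fun z => f z u) fun z => f z v) ∧
      (∀ f : ℂ → ℙ ℂ (Fin (N + 1) → ℂ), HolMap f → (∀ z, InV p (f z)) → (∃ z w, f z ≠ f w) →
        SmallCurve s r e f → ∀ z, eval (f z).rep G = 0) ∧
      (∀ (L : AddSubgroup ℂ) (f : ℂ → ℙ ℂ (Fin (N + 1) → ℂ)), HolMap f → (∀ z, InV p (f z)) →
        PerCurve L s r e f → (∀ z, eval (f z).rep G = 0) ∨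
          ∃ Λ : AddSubgroup L, Λ.index ≠ 0 ∧ Λ.index ≤ D ∧
            ∀ l ∈ Λ, ∀ z, f (z + (l : ℂ)) = f z) :=
  gt_gen hy hL s r e

end Pool.Agent.Results.MP_8d161d_ag.SmallCoefficients
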